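import Mathlib

/-!
# The telescope of a homotopy idempotent: linear algebra at one object
-/

set_option autoImplicit false

namespace Pool.Agent.Helper68.RZL

open Finsupp

section

variable {k : Type*} [Field k] {Al An Am Nl Nn : Type*} [AddCommGroup Al] [AddCommGroup An]
  [AddCommGroup Am] [AddCommGroup Nl] [AddCommGroup Nn] [Module k Al] [Module k An] [Module k Am]
  [Module k Nl] [Module k Nn]

/-- An element of a countable direct sum all of whose components are in the image. -/
theorem exists_sum_preimage (d : An →ₗ[k] Am) (b : ℕ →₀ Am) (h : ∀ i, ∃ c, b i = d c) :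
    ∃ c : ℕ →₀ An, b = Finsupp.mapRange.linearMap d c := by
  classical
  choose c hc using h
  refine ⟨Finsupp.onFinset b.support (fun i => if i ∈ b.support then c i else 0) ?_, ?_⟩
  · intro i hi
    by_contra h'
    exact hi (if_neg h')
  · ext i
    rw [Finsupp.mapRange.linearMap_apply, Finsupp.mapRange_apply, Finsupp.onFinset_apply]
    by_cases h' : i ∈ b.support
    · rw [if_pos h']
      exact hc i
    · rw [if_neg h', map_zero]
      exact Finsupp.notMem_support_iff.1 h'

/-- The components of the shift map. -/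
theorem shift_comp (e : Am →ₗ[k] Am) (σ : (ℕ →₀ Am) →ₗ[k] (ℕ →₀ Am))
    (hσ : ∀ i z, σ (single i z) = single (i + 1) (e z)) (b : ℕ →₀ Am) :
    (σ b) 0 = 0 ∧ ∀ i, (σ b) (i + 1) = e (b i) := by
  induction b using Finsupp.induction_linear with
  | zero => simp
  | add f g hf hg =>
    refine ⟨by rw [map_add σ f g, Finsupp.add_apply, hf.1, hg.1, add_zero], fun i => ?_⟩
    rw [map_add σ f g, Finsupp.add_apply, hf.2, hg.2, Finsupp.add_apply, map_add]
  | single j z =>
    refine ⟨by rw [hσ]; simp, fun i => ?_⟩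
    rw [hσ, Finsupp.single_apply, Finsupp.single_apply]
    by_cases h : j = i
    · subst h; simp
    · rw [if_neg (by omega), if_neg h, map_zero]

/-- The shift maps commute with a map which commutes with `e`. -/
theorem shift_comm (d : An →ₗ[k] Am) (en : An →ₗ[k] An) (em : Am →ₗ[k] Am)
    (hem : ∀ x, d (en x) = em (d x)) (σn : (ℕ →₀ An) →ₗ[k] (ℕ →₀ An))
    (σm : (ℕ →₀ Am) →ₗ[k] (ℕ →₀ Am))
    (hσn : ∀ i z, σn (single i z) = single (i + 1) (en z))
    (hσm : ∀ i z, σm (single i z) = single (i + 1) (em z)) (c : ℕ →₀ An) :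
    Finsupp.mapRange.linearMap d (σn c) = σm (Finsupp.mapRange.linearMap d c) := by
  induction c using Finsupp.induction_linear with
  | zero => rw [map_zero, map_zero, map_zero]
  | add f g hf hg =>
    rw [map_add σn f g, map_add (Finsupp.mapRange.linearMap d), hf, hg,
      map_add (Finsupp.mapRange.linearMap d), map_add σm]
  | single j z =>
    rw [hσn, Finsupp.mapRange.linearMap_apply, Finsupp.mapRange.linearMap_apply,
      Finsupp.mapRange_single, Finsupp.mapRange_single, hσm, hem]

/-- The heart of the telescope argument. -/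
theorem tel_core (dA : Al →ₗ[k] An) (dA' : An →ₗ[k] Am) (dN : Nl →ₗ[k] Nn)
    (en : An →ₗ[k] An) (em : Am →ₗ[k] Am) (hem : ∀ x, dA' (en x) = em (dA' x))
    (hidem : ∀ z, dA' z = 0 → ∃ u, en (en z) = en z + dA u)
    (iN : (ℕ →₀ An) →ₗ[k] Nn) (jn : (ℕ →₀ An) →ₗ[k] Nl) (jm : (ℕ →₀ Am) →ₗ[k] Nn)
    (σn : (ℕ →₀ An) →ₗ[k] (ℕ →₀ An)) (σm : (ℕ →₀ Am) →ₗ[k] (ℕ →₀ Am))
    (hσn : ∀ i z, σn (single i z) = single (i + 1) (en z))
    (hσm : ∀ i z, σm (single i z) = single (i + 1) (em z))
    (hj : ∀ c : ℕ →₀ An, dN (jn c) = iN (c - σn c) - jm (Finsupp.mapRange.linearMap dA' c))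
    (hi : ∀ (i : ℕ) (u : Al), ∃ w, iN (single i (dA u)) = dN w)
    (ρl : Nl →ₗ[k] Nl) (ρn : Nn →ₗ[k] Nn) (hρ : ∀ w, ρn (dN w) = dN (ρl w))
    (hρ0 : ∀ z, ρn (iN (single 0 z)) = iN (single 0 (en z)))
    (a : ℕ →₀ An) (b : ℕ →₀ Am)
    (hab : Finsupp.mapRange.linearMap dA' a = -(b - σm b)) :
    ∃ w, ρn (iN a + jm b) = (iN a + jm b) + dN w := by
  classical
  -- the set of good elements is a subgroup which contains the exact elements
  let T : Submodule k Nn :=
    { carrier := {y | ∃ w, ρn y = y + dN w}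
      add_mem' := by
        rintro y y' ⟨w, hw⟩ ⟨w', hw'⟩
        refine ⟨w + w', ?_⟩
        rw [map_add, map_add, hw, hw']; abel
      zero_mem' := ⟨0, by simp⟩
      smul_mem' := by
        rintro c y ⟨w, hw⟩
        exact ⟨c • w, by rw [map_smul, map_smul, hw, smul_add]⟩ }
  have hTe : ∀ w, dN w ∈ T := fun w => ⟨ρl w - w, by rw [hρ, map_sub]; abel⟩
  -- homologous elements
  let R : Submodule k Nn := LinearMap.range dN
  have hRT : R ≤ T := by
    rintro _ ⟨w, rfl⟩
    exact hTe w
  -- the relation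
  have hrel : ∀ (i : ℕ) (z : An), dA' z = 0 →
      iN (single i z) - iN (single (i + 1) (en z)) ∈ R := by
    intro i z hz
    refine ⟨jn (single i z), ?_⟩
    rw [hj, hσn, map_sub, Finsupp.mapRange.linearMap_apply, Finsupp.mapRange_single, hz,
      Finsupp.single_zero, map_zero, sub_zero]
  have hez : ∀ z, dA' z = 0 → dA' (en z) = 0 := fun z hz => by rw [hem, hz, map_zero]
  have hidem' : ∀ (i : ℕ) (z : An), dA' z = 0 →
      iN (single i (en (en z))) - iN (single i (en z)) ∈ R := by
    intro i z hz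
    obtain ⟨u, hu⟩ := hidem z hz
    obtain ⟨w, hw⟩ := hi i u
    exact ⟨w, by rw [← hw, hu, Finsupp.single_add, map_add, add_sub_cancel_left]⟩
  -- `inc_i (e z) ~ inc_i z`
  have hsame : ∀ (i : ℕ) (z : An), dA' z = 0 →
      iN (single i (en z)) - iN (single i z) ∈ R := by
    intro i z hz
    have h1 := hrel i z hz
    have h2 := hrel i (en z) (hez z hz)
    have h3 := hidem' (i + 1) z hz
    have h4 := R.sub_mem (R.add_mem h2 h3) h1
    convert h4 using 1
    abel
  have hgood : ∀ (i : ℕ) (z : An), dA' z = 0 → iN (single i z) ∈ T := by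
    intro i
    induction i with
    | zero =>
      intro z hz
      obtain ⟨w, hw⟩ := hsame 0 z hz
      exact ⟨w, by rw [hρ0, hw]; abel⟩
    | succ i ih =>
      intro z hz
      have h1 := hRT (hsame (i + 1) z hz)
      have h2 := hRT (hrel i z hz)
      have h3 := T.sub_mem (T.sub_mem (ih z hz) h2) h1
      convert h3 using 1
      abel
  -- `b` is exact
  have hb : ∀ i, ∃ c, b i = dA' c := by
    have hc : ∀ i, dA' (a i) = -(b i - σm b i) := by
      intro i
      have := congrArg (fun f : ℕ →₀ Am => f i) hab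
      simpa using this
    obtain ⟨h0, h1⟩ := shift_comp em σm hσm b
    intro i
    induction i with
    | zero =>
      refine ⟨-a 0, ?_⟩
      rw [map_neg, hc 0, h0]; simp
    | succ i ih =>
      obtain ⟨c, hci⟩ := ih
      refine ⟨en c - a (i + 1), ?_⟩
      rw [map_sub, hem, ← hci, hc (i + 1), h1 i]
      abel
  obtain ⟨c, hc⟩ := exists_sum_preimage dA' b hb
  -- `i a + j b + d (j c) = i (a + δ c)`
  have hy : iN a + jm b = iN (a + (c - σn c)) - dN (jn c) := by
    rw [hj, hc, map_add]; abel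
  have hcl : Finsupp.mapRange.linearMap dA' (a + (c - σn c)) = 0 := by
    have h1 : Finsupp.mapRange.linearMap dA' (σn c) =
        σm (Finsupp.mapRange.linearMap dA' c) :=
      shift_comm dA' en em hem σn σm hσn hσm c
    rw [map_add, map_sub, hab, h1, ← hc]
    abel
  have hsum : ∀ x : ℕ →₀ An, Finsupp.mapRange.linearMap dA' x = 0 → iN x ∈ T := by
    intro x hx
    have h1 : x = ∑ i ∈ x.support, single i (x i) := (Finsupp.sum_single x).symm
    rw [h1, map_sum]
    refine T.sum_mem fun i _ => hgood i (x i) ?_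
    have := congrArg (fun f : ℕ →₀ Am => f i) hx
    simpa using this
  have := T.sub_mem (hsum _ hcl) (hTe (jn c))
  rw [← hy] at this
  exact this

end

end Pool.Agent.Helper68.RZL
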