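import Pool.Agent.Helper49.RZ.St
import Pool.Agent.Helper68.RZL.TelCore

/-!
# RZ-L6: homotopy idempotents of h-projective modules split (by the telescope)
-/

set_option autoImplicit false

namespace Pool.Agent.Helper68.RZL

open Pool.Agent.Helper17.RZ Pool.Agent.Helper49.RZ

universe u v w

section Cat

variable {k : Type u} [Field k] {C : DGCat.{u, v, w} k}

theorem d_left {X Y Z : C.Obj} {n m n' m' : ℤ} (h : 0 + n = m) (hn : n + 1 = n') (hm : m + 1 = m')
    (h' : 0 + n' = m') (f : C.Hom Y Z 0) (hf : C.d (zero_add 1) f = 0) (x : C.Hom X Y n) :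
    C.d hm (C.comp h f x) = C.comp h' f (C.d hn x) := by
  rw [C.d_comp h hm (zero_add 1) hn (show 1 + n = m' by omega) h' f x, hf, map_zero,
    LinearMap.zero_apply, zero_add, Int.negOnePow_zero, one_smul]

theorem d_right {X Y Z : C.Obj} {n m n' m' : ℤ} (h : n + 0 = m) (hn : n + 1 = n') (hm : m + 1 = m')
    (h' : n' + 0 = m') (x : C.Hom Y Z n) (g : C.Hom X Y 0) (hg : C.d (zero_add 1) g = 0) :
    C.d hm (C.comp h x g) = C.comp h' (C.d hn x) g := by
  rw [C.d_comp h hm hn (zero_add 1) h' (show n + 1 = m' by omega) x g, hg, map_zero,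
    smul_zero, add_zero]

/-- The last step: from a homotopy inverse of `r s` to the splitting. -/
theorem split_final {X N : C.Obj} (e : C.Hom X X 0) (r : C.Hom X N 0) (s : C.Hom N X 0)
    (hr : C.d (zero_add 1) r = 0) (hs : C.d (zero_add 1) s = 0)
    (hsr : C.comp (zero_add 0) s r = e) (κ : C.Hom X N (-1))
    (hκ : C.comp (zero_add 0) r e = r + C.d (neg_add_cancel 1) κ)
    (g : C.Hom N N 0) (hg : C.d (zero_add 1) g = 0) (s1 t1 : C.Hom N N (-1))
    (h1 : C.comp (zero_add 0) g (C.comp (zero_add 0) r s) = C.one N + C.d (neg_add_cancel 1) s1)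
    (h2 : C.comp (zero_add 0) (C.comp (zero_add 0) r s) g = C.one N + C.d (neg_add_cancel 1) t1) :
    ∃ (r' : C.Hom X N 0) (s' : C.Hom N X 0) (a : C.Hom N N (-1)) (b : C.Hom X X (-1)),
      C.d (zero_add 1) r' = 0 ∧ C.d (zero_add 1) s' = 0 ∧
      C.comp (zero_add 0) r' s' = C.one N + C.d (neg_add_cancel 1) a ∧
      C.comp (zero_add 0) s' r' = e + C.d (neg_add_cancel 1) b := by
  refine ⟨r, C.comp (zero_add 0) s g, t1,
    C.comp (zero_add (-1)) s (C.comp (add_zero (-1)) s1 r - C.comp (zero_add (-1)) g κ), hr, ?_,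
    ?_, ?_⟩
  · rw [d_left (zero_add 0) (zero_add 1) (zero_add 1) (zero_add 1) s hs g, hg, map_zero]
  · rw [← h2, C.assoc (zero_add 0) (zero_add 0) (zero_add 0) (zero_add 0)]
  · -- `g r = r + d (s1 r - g κ)`
    have h3 : C.comp (zero_add 0) g r = r + C.d (neg_add_cancel 1)
        (C.comp (add_zero (-1)) s1 r - C.comp (zero_add (-1)) g κ) := by
      have h4 : C.comp (zero_add 0) (C.comp (zero_add 0) g (C.comp (zero_add 0) r s)) r =
          C.comp (zero_add 0) g (C.comp (zero_add 0) r e) := by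
        rw [← hsr, C.assoc (zero_add 0) (zero_add 0) (zero_add 0) (zero_add 0),
          C.assoc (zero_add 0) (zero_add 0) (zero_add 0) (zero_add 0)]
      rw [h1, hκ, map_add, map_add, LinearMap.add_apply, C.one_comp] at h4
      rw [map_sub, d_right (add_zero (-1)) (neg_add_cancel 1) (neg_add_cancel 1) (zero_add 0) s1 r hr,
        d_left (zero_add (-1)) (neg_add_cancel 1) (neg_add_cancel 1) (zero_add 0) g hg κ]
      rw [← sub_eq_iff_eq_add'.2 h4.symm]
      abel
    rw [C.assoc (zero_add 0) (zero_add 0) (zero_add 0) (zero_add 0), h3, map_add, hsr,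
      d_left (zero_add (-1)) (neg_add_cancel 1) (neg_add_cancel 1) (zero_add 0) s hs]

end Cat

section Mod

variable {k : Type u} [Field k]

theorem d_one' {C : DGCat.{u, v, w} k} (X : C.Obj) : C.d (zero_add 1) (C.one X) = 0 := by
  have h := C.d_comp (zero_add 0) (zero_add 1) (zero_add 1) (zero_add 1) (add_zero 1) (zero_add 1)
    (C.one X) (C.one X)
  rw [C.one_comp, C.comp_one, C.one_comp, Int.negOnePow_zero, one_smul] at h
  exact left_eq_add.1 h

/-- A closed morphism of degree `0` commutes with the differential. -/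
theorem ap_closed {V : DGCat.{u, v, w} k} {A B : DGMod V} (f : ModHom A B 0)
    (hf : dHom (zero_add 1) f = 0) {X : V.Obj} {n m : ℤ} (h : n + 1 = m) (x : (A.M X).X n) :
    ap f (zero_add m) ((A.M X).d h x) = (B.M X).d h (ap f (zero_add n) x) :=
  (evMap f hf X).comm h x

theorem inc_ap {V : DGCat.{u, v, w} k} (M : DGMod V) (i : ℕ) {X : V.Obj} {n : ℤ}
    (z : (M.M X).X n) : ap (inc M i) (zero_add n) z = (Finsupp.single i z : ℕ →₀ (M.M X).X n) := rfl

theorem hProjSplits (hSum : SumUniv.{u, v, w}) (hCone : ModCone.{u, v, w})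
    (hPS : HProjSum.{u, v, w}) (hPC : HProjCone.{u, v, w}) (hW : Whitehead.{u, v, w}) :
    HProjSplits.{u, v, w} := by
  intro k _ V M hM e h hde hee
  let S : (ModCat V).Obj := sumN M
  obtain ⟨hinc, hex, huniq⟩ := hSum M (sumN M)
  obtain ⟨-, hexM, huniqM⟩ := hSum M M
  let ι : ∀ i : ℕ, (ModCat V).Hom M S 0 := fun i => inc M i
  have hι : ∀ i, (ModCat V).d (zero_add 1) (ι i) = 0 := hinc
  have huniq' : ∀ (n : ℤ) (ψ ψ' : (ModCat V).Hom S S n),
      (∀ i, (ModCat V).comp (add_zero n) ψ (ι i) = (ModCat V).comp (add_zero n) ψ' (ι i)) →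
      ψ = ψ' := huniq
  have huniqM' : ∀ (n : ℤ) (ψ ψ' : (ModCat V).Hom S M n),
      (∀ i, (ModCat V).comp (add_zero n) ψ (ι i) = (ModCat V).comp (add_zero n) ψ' (ι i)) →
      ψ = ψ' := huniqM
  -- the shift map
  obtain ⟨σ, hσ⟩ : ∃ σ : (ModCat V).Hom S S 0, ∀ i, (ModCat V).comp (add_zero 0) σ (ι i) =
      (ModCat V).comp (zero_add 0) (ι (i + 1)) e :=
    hex 0 (fun i => (ModCat V).comp (zero_add 0) (ι (i + 1)) e)
  have hdσ : (ModCat V).d (zero_add 1) σ = 0 := by
    apply huniq' 1
    intro i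
    rw [← d_right (add_zero 0) (zero_add 1) (zero_add 1) (add_zero 1) σ (ι i) (hι i), hσ,
      d_left (zero_add 0) (zero_add 1) (zero_add 1) (zero_add 1) (ι (i + 1)) (hι (i + 1)), hde,
      map_zero, map_zero, LinearMap.zero_apply]
  let δ : (ModCat V).Hom S S 0 := (ModCat V).one S - σ
  have hδ : (ModCat V).d (zero_add 1) δ = 0 := by
    change (ModCat V).d (zero_add 1) ((ModCat V).one S - σ) = 0
    rw [map_sub, d_one', hdσ, sub_zero]
  have hδι : ∀ i, (ModCat V).comp (zero_add 0) δ (ι i) =
      ι i - (ModCat V).comp (zero_add 0) (ι (i + 1)) e := by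
    intro i
    change (ModCat V).comp (zero_add 0) ((ModCat V).one S - σ) (ι i) = _
    rw [map_sub, LinearMap.sub_apply, (ModCat V).one_comp, ← hσ]
  obtain ⟨N, i, p, j, q, hpi, hqj, hip, hpj, hqi, hdi, hdq, hdj, hdp⟩ := hCone S S δ hδ
  -- the maps `E` and `H`
  obtain ⟨E, hE⟩ : ∃ E : (ModCat V).Hom S M 0, ∀ i, (ModCat V).comp (add_zero 0) E (ι i) = e :=
    hexM 0 (fun _ => e)
  obtain ⟨H, hH⟩ : ∃ H : (ModCat V).Hom S M (-1), ∀ i,
      (ModCat V).comp (add_zero (-1)) H (ι i) = -h := hexM (-1) (fun _ => -h)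
  have hdE : (ModCat V).d (zero_add 1) E = 0 := by
    apply huniqM' 1
    intro i
    rw [← d_right (add_zero 0) (zero_add 1) (zero_add 1) (add_zero 1) E (ι i) (hι i), hE, hde,
      map_zero, LinearMap.zero_apply]
  have hdH : (ModCat V).d (neg_add_cancel 1) H = (ModCat V).comp (zero_add 0) E δ := by
    apply huniqM' 0
    intro i
    rw [← d_right (add_zero (-1)) (neg_add_cancel 1) (neg_add_cancel 1) (add_zero 0) H (ι i) (hι i),
      hH, (ModCat V).assoc (zero_add 0) (add_zero 0) (zero_add 0) (zero_add 0), hδι, map_sub, hE,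
      ← (ModCat V).assoc (zero_add 0) (zero_add 0) (zero_add 0) (zero_add 0) E (ι (i + 1)) e, hE,
      hee, map_neg]
    abel
  -- the maps `r` and `s`
  let r : (ModCat V).Hom M N 0 := (ModCat V).comp (zero_add 0) i (ι 0)
  have hr : (ModCat V).d (zero_add 1) r = 0 := by
    change (ModCat V).d (zero_add 1) ((ModCat V).comp (zero_add 0) i (ι 0)) = 0
    rw [d_left (zero_add 0) (zero_add 1) (zero_add 1) (zero_add 1) i hdi, hι, map_zero]
  let s : (ModCat V).Hom N M 0 := (ModCat V).comp (zero_add 0) E p +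
    (ModCat V).comp (neg_add_cancel 1) H q
  have hs : (ModCat V).d (zero_add 1) s = 0 := by
    change (ModCat V).d (zero_add 1) ((ModCat V).comp (zero_add 0) E p +
      (ModCat V).comp (neg_add_cancel 1) H q) = 0
    rw [map_add, d_left (zero_add 0) (zero_add 1) (zero_add 1) (zero_add 1) E hdE, hdp,
      (ModCat V).d_comp (neg_add_cancel 1) (zero_add 1) (neg_add_cancel 1)
        (rfl : (1 : ℤ) + 1 = 1 + 1) (zero_add 1) (by norm_num) H q, hdq, map_zero, smul_zero,
      hdH, (ModCat V).assoc (zero_add 0) (zero_add 1) (zero_add 1) (zero_add 1), map_neg]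
    abel
  have hsr : (ModCat V).comp (zero_add 0) s r = e := by
    change (ModCat V).comp (zero_add 0) ((ModCat V).comp (zero_add 0) E p +
      (ModCat V).comp (neg_add_cancel 1) H q) ((ModCat V).comp (zero_add 0) i (ι 0)) = e
    rw [map_add, LinearMap.add_apply,
      (ModCat V).assoc (zero_add 0) (zero_add 0) (zero_add 0) (zero_add 0) E p,
      ← (ModCat V).assoc (zero_add 0) (zero_add 0) (zero_add 0) (zero_add 0) p i (ι 0), hpi,
      (ModCat V).one_comp, hE,
      (ModCat V).assoc (neg_add_cancel 1) (zero_add 0) (add_zero 1) (neg_add_cancel 1) H q,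
      ← (ModCat V).assoc (add_zero 1) (add_zero 1) (zero_add 0) (add_zero 1) q i (ι 0), hqi,
      map_zero, LinearMap.zero_apply, map_zero, add_zero]
  -- `r e` is homotopic to `r`
  have hjι : ∀ n : ℕ, (ModCat V).d (neg_add_cancel 1) ((ModCat V).comp (add_zero (-1)) j (ι n)) =
      (ModCat V).comp (zero_add 0) i (ι n) -
        (ModCat V).comp (zero_add 0) ((ModCat V).comp (zero_add 0) i (ι (n + 1))) e := by
    intro n
    rw [d_right (add_zero (-1)) (neg_add_cancel 1) (neg_add_cancel 1) (zero_add 0) j (ι n) (hι n),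
      hdj, (ModCat V).assoc (zero_add 0) (zero_add 0) (zero_add 0) (zero_add 0), hδι, map_sub,
      (ModCat V).assoc (zero_add 0) (zero_add 0) (zero_add 0) (zero_add 0)]
  obtain ⟨κ, hκ⟩ : ∃ κ : (ModCat V).Hom M N (-1),
      (ModCat V).comp (zero_add 0) r e = r + (ModCat V).d (neg_add_cancel 1) κ := by
    have hi1 : (ModCat V).d (zero_add 1) ((ModCat V).comp (zero_add 0) i (ι 1)) = 0 := by
      rw [d_left (zero_add 0) (zero_add 1) (zero_add 1) (zero_add 1) i hdi, hι, map_zero]
    refine ⟨-(ModCat V).comp (add_zero (-1)) j (ι 0) +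
      (ModCat V).comp (zero_add (-1)) ((ModCat V).comp (zero_add 0) i (ι 1)) h +
      (ModCat V).comp (add_zero (-1)) ((ModCat V).comp (add_zero (-1)) j (ι 0)) e, ?_⟩
    rw [map_add, map_add, map_neg, hjι,
      d_left (zero_add (-1)) (neg_add_cancel 1) (neg_add_cancel 1) (zero_add 0)
        ((ModCat V).comp (zero_add 0) i (ι 1)) hi1,
      d_right (add_zero (-1)) (neg_add_cancel 1) (neg_add_cancel 1) (zero_add 0)
        ((ModCat V).comp (add_zero (-1)) j (ι 0)) e hde, hjι, ← sub_eq_iff_eq_add'.2 hee, map_sub,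
      map_sub, LinearMap.sub_apply,
      (ModCat V).assoc (zero_add 0) (zero_add 0) (zero_add 0) (zero_add 0)
        ((ModCat V).comp (zero_add 0) i (ι (0 + 1))) e e]
    have h0 : (ModCat V).comp (zero_add 0) i (ι 0) = r := rfl
    rw [h0]
    abel
  -- the map `r s`
  let ρ : (ModCat V).Hom N N 0 := (ModCat V).comp (zero_add 0) r s
  have hρ : (ModCat V).d (zero_add 1) ρ = 0 := by
    change (ModCat V).d (zero_add 1) ((ModCat V).comp (zero_add 0) r s) = 0
    rw [d_left (zero_add 0) (zero_add 1) (zero_add 1) (zero_add 1) r hr, hs, map_zero]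
  have hρr : (ModCat V).comp (zero_add 0) ρ r = (ModCat V).comp (zero_add 0) r e := by
    change (ModCat V).comp (zero_add 0) ((ModCat V).comp (zero_add 0) r s) r = _
    rw [(ModCat V).assoc (zero_add 0) (zero_add 0) (zero_add 0) (zero_add 0), hsr]
  -- pointwise it is the identity on cohomology
  have hpt : ∀ (X : V.Obj) {l n m : ℤ} (h₁ : l + 1 = n) (h₂ : n + 1 = m)
      (y : ((show DGMod V from N).M X).X n), ((show DGMod V from N).M X).d h₂ y = 0 →
      ∃ w, ap (A := N) (B := N) ρ (zero_add n) y = y + ((show DGMod V from N).M X).d h₁ w := by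
    intro X l n m h₁ h₂ y hy
    have hl : -1 + n = l := by omega
    have hm : -1 + m = n := by omega
    have hm' : 1 + n = m := by omega
    -- the components of `y`
    let a : (S.M X).X n := ap (A := N) (B := S) p (zero_add n) y
    let b : (S.M X).X m := ap (A := N) (B := S) q hm' y
    have hyab : y = ap (A := S) (B := N) i (zero_add n) a + ap (A := S) (B := N) j hm b := by
      have h3 := congrArg (fun φ : ModHom N N 0 => ap φ (zero_add n) y) hip
      refine h3.symm.trans ?_
      change ap (compHom (zero_add 0) i p) (zero_add n) y +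
        ap (compHom (neg_add_cancel 1) j q) (zero_add n) y = _
      rw [comp_ap (zero_add 0) i p (zero_add n) (zero_add n) (zero_add n) y,
        comp_ap (neg_add_cancel 1) j q (zero_add n) hm hm' y]
    have hab : (S.M X).d h₂ a = -(b - ap (A := S) (B := S) σ (zero_add m) b) := by
      have h3 := congrArg (fun φ : ModHom N S 1 => ap φ hm' y) hdp
      have h4 := d_ap (zero_add 1) (A := N) (B := S) p hm' h₂ (zero_add n) (zero_add m) h₂ y
      rw [hy, map_zero, smul_zero, sub_zero] at h4
      refine h4.symm.trans (h3.trans ?_)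
      change -(ap (compHom (zero_add 1) δ q) hm' y) = _
      rw [comp_ap (zero_add 1) δ q hm' (zero_add m) hm' y]
      rfl
    have key := tel_core (dA := (M.M X).d h₁) (dA' := (M.M X).d h₂)
      (dN := ((show DGMod V from N).M X).d h₁) (en := ap (A := M) (B := M) e (zero_add n))
      (em := ap (A := M) (B := M) e (zero_add m))
      (fun x => (ap_closed e hde h₂ x).symm) ?_ (ap (A := S) (B := N) i (zero_add n))
      (ap (A := S) (B := N) j hl) (ap (A := S) (B := N) j hm)
      (ap (A := S) (B := S) σ (zero_add n)) (ap (A := S) (B := S) σ (zero_add m)) ?_ ?_ ?_ ?_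
      (ap (A := N) (B := N) ρ (zero_add l)) (ap (A := N) (B := N) ρ (zero_add n))
      (fun w => ap_closed ρ hρ h₁ w) ?_ a b hab
    · obtain ⟨w, hw⟩ := key
      exact ⟨w, (congrArg (ap (A := N) (B := N) ρ (zero_add n)) hyab).trans
        (hw.trans (congrArg (· + ((show DGMod V from N).M X).d h₁ w) hyab.symm))⟩
    · intro z hz
      refine ⟨ap (A := M) (B := M) h hl z, ?_⟩
      have h3 := congrArg (fun φ : ModHom M M 0 => ap φ (zero_add n) z) hee
      have h4 := d_ap (neg_add_cancel 1) (A := M) (B := M) h (zero_add n) h₁ hl hm h₂ z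
      rw [hz, map_zero, smul_zero, sub_zero] at h4
      have h5 := comp_ap (zero_add 0) (A := M) (B := M) (C := M) e e (zero_add n) (zero_add n)
        (zero_add n) z
      rw [← h4, ← h5]
      exact h3
    · intro i' z
      have h3 := congrArg (fun φ : ModHom M S 0 => ap φ (zero_add n) z) (hσ i')
      have h4 := comp_ap (add_zero 0) (A := M) (B := S) (C := S) σ (inc M i') (zero_add n)
        (zero_add n) (zero_add n) z
      have h5 := comp_ap (zero_add 0) (A := M) (B := M) (C := S) (inc M (i' + 1)) e (zero_add n)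
        (zero_add n) (zero_add n) z
      exact h4.symm.trans (h3.trans h5)
    · intro i' z
      have h3 := congrArg (fun φ : ModHom M S 0 => ap φ (zero_add m) z) (hσ i')
      have h4 := comp_ap (add_zero 0) (A := M) (B := S) (C := S) σ (inc M i') (zero_add m)
        (zero_add m) (zero_add m) z
      have h5 := comp_ap (zero_add 0) (A := M) (B := M) (C := S) (inc M (i' + 1)) e (zero_add m)
        (zero_add m) (zero_add m) z
      exact h4.symm.trans (h3.trans h5)
    · intro c
      have h3 := congrArg (fun φ : ModHom S N 0 => ap φ (zero_add n) c) hdj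
      have h4 := d_ap (neg_add_cancel 1) (A := S) (B := N) j (zero_add n) h₁ hl hm h₂ c
      have h5 := comp_ap (zero_add 0) (A := S) (B := S) (C := N) i δ (zero_add n) (zero_add n)
        (zero_add n) c
      have h6 : (-1 : ℤ).negOnePow = -1 := by
        rw [Int.negOnePow_neg, Int.negOnePow_one]
      rw [h6, Units.neg_smul, one_smul, sub_neg_eq_add] at h4
      have h7 := h4.symm.trans (h3.trans h5)
      exact eq_sub_of_add_eq h7
    · intro i' u
      refine ⟨ap (A := S) (B := N) i (zero_add l) (Finsupp.single i' u : ℕ →₀ (M.M X).X l), ?_⟩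
      refine Eq.trans ?_ (ap_closed (A := S) (B := N) i hdi h₁
        (Finsupp.single i' u : ℕ →₀ (M.M X).X l))
      refine congrArg (ap (A := S) (B := N) i (zero_add n)) ?_
      exact (Finsupp.mapRange_single (f := fun y => (M.M X).d h₁ y) (hf := map_zero _)).symm
    · intro z
      have h3 := congrArg (fun φ : ModHom M N 0 => ap φ (zero_add n) z) hρr
      have h4 := comp_ap (zero_add 0) (A := M) (B := N) (C := N) ρ r (zero_add n) (zero_add n)
        (zero_add n) z
      have h5 := comp_ap (zero_add 0) (A := M) (B := M) (C := N) r e (zero_add n) (zero_add n)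
        (zero_add n) z
      have h6 : ∀ z : (M.M X).X n, ap (A := M) (B := N) r (zero_add n) z =
          ap (A := S) (B := N) i (zero_add n) (Finsupp.single 0 z : ℕ →₀ (M.M X).X n) := fun z =>
        comp_ap (zero_add 0) (A := M) (B := S) (C := N) i (inc M 0) (zero_add n) (zero_add n)
          (zero_add n) z
      have h7 := h4.symm.trans (h3.trans h5)
      rw [h6, h6] at h7
      exact h7
  obtain ⟨g, s1, t1, hg, h1, h2⟩ := hW N N ρ hρ (hPC S S N δ hδ
    ⟨i, p, j, q, hpi, hqj, hip, hpj, hqi, hdi, hdq, hdj, hdp⟩ (hPS M hM) (hPS M hM))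
    (hPC S S N δ hδ
    ⟨i, p, j, q, hpi, hqj, hip, hpj, hqi, hdi, hdq, hdj, hdp⟩ (hPS M hM) (hPS M hM)) (by
    intro X
    constructor
    · intro l n m h₁ h₂ x y hx hxy
      obtain ⟨w, hw⟩ := hpt X h₁ h₂ x hx
      refine ⟨y - w, ?_⟩
      rw [map_sub, ← hxy]
      exact (sub_eq_of_eq_add hw).symm
    · intro l n m h₁ h₂ y hy
      obtain ⟨w, hw⟩ := hpt X h₁ h₂ y hy
      refine ⟨y, -w, hy, ?_⟩
      rw [map_neg, ← sub_eq_add_neg]
      exact (sub_eq_of_eq_add hw).symm)
  obtain ⟨r', s', a, b, H1, H2, H3, H4⟩ := split_final e r s hr hs hsr κ hκ g hg s1 t1 h1 h2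
  exact ⟨N, r', s', a, b, H1, H2, H3, H4⟩

end Mod

end Pool.Agent.Helper68.RZL
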